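import Pool.Agent.H30.FCBS.Defs
import Pool.Agent.H30.FCB.All

/-! The definitions of `FCBS` agree with those of `FCB`. -/

open AlgebraicGeometry CategoryTheory

namespace FCBS

section

variable {X : Scheme.{0}} [IsIntegral X] [IsLocallyNoetherian X]

theorem ample_iff (D : PrimeDiv X →₀ ℤ) : IsAmple D ↔ FCB.IsAmple (X := X) D := Iff.rfl

theorem picard_eq : picardNumber X = FCB.picardNumber X := by
  have h : AddSubgroup.closure {D : PrimeDiv X →₀ ℤ | IsNumTriv D} = FCB.numTriv X :=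
    AddSubgroup.closure_eq (FCB.numTriv X)
  unfold picardNumber rankMod FCB.picardNumber
  rw [h]
  rfl

end

theorem sec_eq {X : Scheme.{0}} (s : X ⟶ Spec (.of ℂ)) (U : X.Opens) :
    (sec s U).hom = FCB.secHom s U := rfl

theorem sec_germ {X : Scheme.{0}} [IsIntegral X] (s : X ⟶ Spec (.of ℂ)) (U : X.Opens)
    [hU : Nonempty U] : ((sec s U) ≫ germ X U).hom = FCB.ffHom s := by
  have hm : genericPoint X ∈ U :=
    ((genericPoint_spec X).mem_open_set_iff U.isOpen).mpr (by simpa using hU)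
  have h1 : (sec s U) ≫ germ X U = ((Scheme.ΓSpecIso (.of ℂ)).inv ≫ s.appTop) ≫
      (X.presheaf.map (homOfLE (le_top : U ≤ ⊤)).op ≫ X.presheaf.germ U (genericPoint X) hm) := rfl
  have h2 : FCB.ffHom s = (((Scheme.ΓSpecIso (.of ℂ)).inv ≫ s.appTop) ≫
      (X.presheaf.map (homOfLE (le_top : (⊤ : X.Opens) ≤ ⊤)).op ≫
        X.presheaf.germ ⊤ (genericPoint X) trivial)).hom := rfl
  rw [h2, h1, X.presheaf.germ_res, X.presheaf.germ_res]

theorem coord_iff {X : Scheme.{0}} (s : X ⟶ Spec (.of ℂ)) (U : X.Opens) {n : ℕ}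
    (u : Fin n → Sec X U) :
    @IsCoordOver ℂ (Sec X U) _ _ (sec s U).hom.toAlgebra n u ↔ FCB.IsCoord s U u := Iff.rfl

theorem can_aux {X : Scheme.{0}} [IsIntegral X] [IsLocallyNoetherian X]
    (s : X ⟶ Spec (.of ℂ)) (D : PrimeDiv X →₀ ℤ) :
    @HasFormOver ℂ X.functionField _ _ (FCB.ffHom s).toAlgebra (PrimeDiv X)
      (fun p _ t g => IsLocal s p t ∧ D p = Scheme.ord g (pt p)) ↔ FCB.IsCanonical s D := by
  letI : Algebra ℂ X.functionField := (FCB.ffHom s).toAlgebra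
  constructor
  · rintro ⟨n, b, h⟩
    refine ⟨n, b, fun p => ?_⟩
    obtain ⟨t, c, hc, ⟨U, hU, u, h1, h2, h3, h4⟩, h5⟩ := h p
    refine ⟨U, hU, u, c, h1, h2, h3, fun i => ?_, h5⟩
    rw [hc i, h4 i]
    rfl
  · rintro ⟨n, b, h⟩
    refine ⟨n, b, fun p => ?_⟩
    obtain ⟨U, hU, u, c, h1, h2, h3, h4, h5⟩ := h p
    exact ⟨fun i => X.germToFunctionField U (u i), c, h4, ⟨U, hU, u, h1, h2, h3, fun _ => rfl⟩, h5⟩

theorem canonical_iff {X : Scheme.{0}} [IsIntegral X] [IsLocallyNoetherian X]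
    (s : X ⟶ Spec (.of ℂ)) (D : PrimeDiv X →₀ ℤ) : IsCanonical s D ↔ FCB.IsCanonical s D := by
  rw [← can_aux]
  constructor
  · rintro ⟨U, hU, h⟩
    have he := sec_germ s U
    exact he ▸ h
  · intro h
    have hU : Nonempty (⊤ : X.Opens) := ⟨⟨genericPoint X, trivial⟩⟩
    refine ⟨⊤, hU, ?_⟩
    have he := sec_germ s (⊤ : X.Opens)
    exact he ▸ h

theorem main : ∃ (X Y : Scheme.{0}) (_ : IsIntegral X) (_ : IsLocallyNoetherian X)
    (_ : IsIntegral Y) (_ : IsLocallyNoetherian Y) (s : X ⟶ Spec (.of ℂ)) (t : Y ⟶ Spec (.of ℂ))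
    (f : X ⟶ Y), IsVar s ∧ IsVar t ∧ IsFanoConicBundle s t f ∧ picardNumber X = 5 ∧
    picardNumber Y = 3 ∧ (∃ K : PrimeDiv Y →₀ ℤ, IsCanonical t K) ∧
    ∀ K : PrimeDiv Y →₀ ℤ, IsCanonical t K → ¬ IsAmple (-K) := by
  obtain ⟨X, Y, f, hf, h5, h3, ⟨K, hK⟩, hn⟩ := FCB.answer
  refine ⟨X.X, Y.X, X.int, X.noeth, Y.int, Y.noeth, X.str, Y.str, f,
    ⟨X.smooth, X.proper, X.proj⟩, ⟨Y.smooth, Y.proper, Y.proj⟩, ?_, ?_, ?_, ?_, ?_⟩
  · refine ⟨hf.comm, ?_, ⟨hf.surj⟩, fun V => ?_, hf.fibre⟩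
    · obtain ⟨K, hK, hA⟩ := hf.fano
      exact ⟨K, (canonical_iff X.str K).mpr hK, hA⟩
    · exact (ConcreteCategory.isIso_iff_bijective _).mpr (hf.contraction V)
  · rw [picard_eq]; exact h5
  · rw [picard_eq]; exact h3
  · exact ⟨K, (canonical_iff Y.str K).mpr hK⟩
  · exact fun K hK => hn K ((canonical_iff Y.str K).mp hK)

end FCBS
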