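import Mathlib

/-!
Definitions for the statement: Weil divisors, ample divisors, canonical divisors, Picard number,
smooth projective varieties over the complex numbers, Fano conic bundles.
-/

open AlgebraicGeometry CategoryTheory

namespace FCBS

/-- The points of codimension one of a scheme (generic points of prime divisors). -/
def PrimeDiv (X : Scheme.{0}) : Type := {p : X // Order.coheight p = 1}

/-- The point of a prime divisor. -/
def pt {X : Scheme.{0}} (p : PrimeDiv X) : X := p.1

/-- The rank of the quotient of `A` by the subgroup generated by the `a` with `P a`. -/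
noncomputable def rankMod (A : Type) [AddCommGroup A] (P : A → Prop) : ℕ :=
  Module.finrank ℤ (A ⧸ AddSubgroup.closure {a | P a})

section

variable {X : Scheme.{0}} [IsIntegral X] [IsLocallyNoetherian X]

/-- Linear equivalence: `E = D + div f` for a nonzero rational function `f`. -/
def LinEquiv (D E : PrimeDiv X →₀ ℤ) : Prop :=
  ∃ f : X.functionField, f ≠ 0 ∧ ∀ p : PrimeDiv X, E p = D p + Scheme.ord f (pt p)

/-- `D` is ample: every point `x` lies in an affine open set which is the complement of the
support of an effective divisor linearly equivalent to a positive multiple of `D`. -/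
def IsAmple (D : PrimeDiv X →₀ ℤ) : Prop :=
  ∀ x : X, ∃ (n : ℕ) (E : PrimeDiv X →₀ ℤ) (U : X.Opens),
    0 < n ∧ LinEquiv (n • D) E ∧ 0 ≤ E ∧ IsAffineOpen U ∧ x ∈ U ∧
      ∀ y : X, y ∈ U ↔ ∀ p : PrimeDiv X, pt p ⤳ y → E p = 0

/-- Numerically trivial divisors on a projective variety, by Kleiman's criterion:
`H + D` and `H - D` are ample for every ample `H`. -/
def IsNumTriv (D : PrimeDiv X →₀ ℤ) : Prop :=
  ∀ H : PrimeDiv X →₀ ℤ, IsAmple H → IsAmple (H + D) ∧ IsAmple (H - D)

variable (X) in
/-- The Picard number: the rank of the group of divisors modulo numerical equivalence. -/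
noncomputable def picardNumber : ℕ := rankMod (PrimeDiv X →₀ ℤ) IsNumTriv

end

/-- `dt_1, …, dt_n` is a basis of `M`; `d` is a map from the ring `A` to the module `M`. -/
def IsCoord {A M : Type} [CommRing A] [AddCommGroup M] [Module A M] (d : A → M) {n : ℕ}
    (t : Fin n → A) : Prop :=
  ∃ c : Module.Basis (Fin n) A M, ∀ i, c i = d (t i)

/-- There is a nonzero top form `ω = b_1 ∧ … ∧ b_n` of the vector space `M` over the field `F`, such
that for every `p` there are coordinates `t` with `ω = g dt_1 ∧ … ∧ dt_n` and `R p n t g`. -/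
def HasForm {F M : Type} [Field F] [AddCommGroup M] [Module F M] (d : F → M) {P : Type}
    (R : P → (n : ℕ) → (Fin n → F) → F → Prop) : Prop :=
  ∃ (n : ℕ) (b : Module.Basis (Fin n) F M), ∀ p : P, ∃ (t : Fin n → F)
    (c : Module.Basis (Fin n) F M), (∀ i, c i = d (t i)) ∧ R p n t (c.det b)

/-- Coordinates of the `k`-algebra `A`: their differentials form a basis of the module of Kähler
differentials. -/
def IsCoordOver (k A : Type) [CommRing k] [CommRing A] [Algebra k A] {n : ℕ} (t : Fin n → A) :
    Prop := IsCoord (KaehlerDifferential.D k A) t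

/-- The same for the rational top forms of the field `F` over `k`. -/
def HasFormOver (k F : Type) [Field k] [Field F] [Algebra k F] {P : Type}
    (R : P → (n : ℕ) → (Fin n → F) → F → Prop) : Prop := HasForm (KaehlerDifferential.D k F) R

/-- The ring of sections over `U`. -/
def Sec (X : Scheme.{0}) (U : X.Opens) : CommRingCat.{0} := Γ(X, U)

/-- The structure map of the sections over `U` of a scheme over `ℂ`. -/
noncomputable def secHom {X : Scheme.{0}} (s : X ⟶ Spec (.of ℂ)) (U : X.Opens) :
    CommRingCat.of ℂ ⟶ Γ(X, U) := (Scheme.ΓSpecIso (.of ℂ)).inv ≫ s.appLE ⊤ U le_top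

/-- The same map. -/
noncomputable def sec {X : Scheme.{0}} (s : X ⟶ Spec (.of ℂ)) (U : X.Opens) :
    CommRingCat.of ℂ ⟶ Sec X U := secHom s U

/-- The germ at the generic point of an integral scheme. -/
noncomputable def germ (X : Scheme.{0}) [IsIntegral X] (U : X.Opens) [Nonempty U] :
    Sec X U ⟶ X.functionField := X.germToFunctionField U

/-- `t` are local coordinates near the prime divisor `p`. -/
def IsLocal {X : Scheme.{0}} [IsIntegral X] (s : X ⟶ Spec (.of ℂ)) (p : PrimeDiv X) {n : ℕ}
    (t : Fin n → X.functionField) : Prop :=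
  ∃ (U : X.Opens) (_ : Nonempty U) (u : Fin n → Sec X U), IsAffineOpen U ∧ pt p ∈ U ∧
    @IsCoordOver ℂ (Sec X U) _ _ (sec s U).hom.toAlgebra n u ∧ ∀ i, t i = (germ X U).hom (u i)

/-- `D` is a canonical divisor: it is the divisor of a nonzero rational top form.  (The structure
map of the function field is the composition of `ℂ → Γ(X, U)` and the germ, for any `U`.) -/
def IsCanonical {X : Scheme.{0}} [IsIntegral X] [IsLocallyNoetherian X]
    (s : X ⟶ Spec (.of ℂ)) (D : PrimeDiv X →₀ ℤ) : Prop :=
  ∃ (U : X.Opens) (_ : Nonempty U),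
    @HasFormOver ℂ X.functionField _ _ ((sec s U) ≫ germ X U).hom.toAlgebra (PrimeDiv X)
      fun p _ t g => IsLocal s p t ∧ D p = Scheme.ord g (pt p)

/-- Smooth projective varieties over `ℂ`: integral schemes, smooth and proper over `ℂ`, which
carry an ample divisor. -/
structure IsVar {X : Scheme.{0}} [IsIntegral X] [IsLocallyNoetherian X] (s : X ⟶ Spec (.of ℂ)) :
    Prop where
  smooth : Smooth s
  proper : IsProper s
  proj : ∃ D : PrimeDiv X →₀ ℤ, IsAmple D

/-- The dimension of a scheme. -/
noncomputable def dim (X : Scheme.{0}) : WithBot ℕ∞ := topologicalKrullDim X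

/-- Fano conic bundles `f : X → Y`: `X` is a smooth Fano variety, `f` is a contraction onto
`Y` and all fibres have dimension one. -/
structure IsFanoConicBundle {X Y : Scheme.{0}} [IsIntegral X] [IsLocallyNoetherian X]
    (s : X ⟶ Spec (.of ℂ)) (t : Y ⟶ Spec (.of ℂ)) (f : X ⟶ Y) : Prop where
  comm : f ≫ t = s
  fano : ∃ K : PrimeDiv X →₀ ℤ, IsCanonical s K ∧ IsAmple (-K)
  surj : Surjective f
  contraction : ∀ V : Y.Opens, IsIso (f.app V)
  fibre : ∀ y : Y, dim (f.fiber y) = 1

end FCBS
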